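import Pool.Agent.Helper80.Stack.Goals

set_option autoImplicit false

/-!
# Even chains on the triangulation are boundaries (packet TRIFILL, MP_d6b153_co)
-/

namespace Pool.Agent.Helper23.Stk

open Pool.Agent.Helper80.Stk Classical Finset

noncomputable section

theorem card_pair {T : Type} (R : Finset T) (p : T → Prop) [DecidablePred p] (t t' : T)
    (htt : t ≠ t') (hp : ∀ s, p s ↔ (s = t ∨ s = t')) :
    ((R.filter p).card : ZMod 2) = (if t ∈ R then 1 else 0) + (if t' ∈ R then 1 else 0) := by
  have h1 : R.filter p = ({t, t'} : Finset T).filter (fun s => s ∈ R) := by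
    ext s
    rw [mem_filter, mem_filter, hp, mem_insert, mem_singleton]
    tauto
  rw [h1, card_filter, Finset.sum_pair htt]
  push_cast
  rfl

theorem ite_mem {T : Type} (R : Finset T) (t : T) [Decidable (t ∈ R)] (x : ZMod 2)
    (h : t ∈ R ↔ x = 1) : (if t ∈ R then (1 : ZMod 2) else 0) = x := by
  by_cases ht : t ∈ R
  · rw [if_pos ht, h.1 ht]
  · rw [if_neg ht]
    have h2 : x ≠ 1 := fun h3 => ht (h.2 h3)
    clear h ht
    revert x
    decide

theorem bd_pair {W Tr : Type} (vt : Tr → Finset W) (R : Finset Tr) (u v : W) (t t' : Tr)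
    (htt : t ≠ t') (huv : u ≠ v) (hp : ∀ s, (u ∈ vt s ∧ v ∈ vt s) ↔ (s = t ∨ s = t'))
    (x y : ZMod 2) (hx : t ∈ R ↔ x = 1) (hy : t' ∈ R ↔ y = 1) :
    bd vt R u v = x + y := by
  unfold bd
  rw [if_neg huv, card_pair _ _ t t' htt hp, ite_mem R t x hx, ite_mem R t' y hy]

theorem bd_none {W Tr : Type} (vt : Tr → Finset W) (R : Finset Tr) (u v : W)
    (hp : ∀ s, u ∈ vt s → v ∉ vt s) : bd vt R u v = 0 := by
  unfold bd
  split_ifs with h
  · rfl
  · rw [Finset.filter_false_of_mem (fun t _ h => hp t h.1 h.2)]
    simp

theorem bd_self {W Tr : Type} (vt : Tr → Finset W) (R : Finset Tr) (u : W) :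
    bd vt R u u = 0 := by
  unfold bd
  rw [if_pos rfl]

theorem ind2 (x : ZMod 2) : (if x = 1 then (1 : ZMod 2) else 0) = x := by
  revert x
  decide

theorem add_self2 (x : ZMod 2) : x + x = 0 := by
  revert x
  decide

theorem pf_TriFill (hE : StmtTriEdges) (hD : StmtTriDeg) (hO : StmtOrbit) : StmtTriFill := by
  intro V D _ _ P C hsym hdiag hsupp hdeg
  obtain ⟨-, hE2, hE3⟩ := hE V D P
  obtain ⟨hD1, hD2, hD3⟩ := hD V D P C hsym hdiag hsupp hdeg
  set diag : D → ZMod 2 := fun d => C (wV P (P.o d)) (wD P (P.φ d)) with hdg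
  set spoke : D → ZMod 2 := fun d => C (wV P (P.o d)) (wD P d) with hsp
  set ring' : D → ZMod 2 := fun d => C (wD P d) (wD P (P.φ d)) with hrg
  set inner' : D → ZMod 2 := fun d => C (wD P d) (wF P d) with hin
  set main' : D → ZMod 2 := fun d => C (wV P (P.o d)) (wV P (P.o (P.α d))) with hmn
  have hD2' : ∀ d, spoke d + diag (P.φ.symm d) + ring' d + ring' (P.φ.symm d) + inner' d = 0 := by
    intro d
    have h := hD2 d
    simp only [hsp, hdg, hrg, hin, Equiv.apply_symm_apply]
    exact h
  have hD1' : ∀ v : V, (∑ d : D, (if P.o d = v then main' d + spoke d + diag d else 0)) = 0 := hD1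
  -- sum over a cycle of a shifted function
  have hshift : ∀ (h : D → ZMod 2) (d : D),
      (∑ d' : D, (if P.φ.SameCycle d d' then h (P.φ.symm d') else 0)) =
        ∑ d' : D, (if P.φ.SameCycle d d' then h d' else 0) := by
    intro h d
    rw [← Equiv.sum_comp P.φ (fun d' => if P.φ.SameCycle d d' then h (P.φ.symm d') else 0)]
    apply Finset.sum_congr rfl
    intro d' _
    rw [Equiv.symm_apply_apply]
    congr 1
    exact propext Equiv.Perm.sameCycle_apply_right
  have hg : ∀ d, (∑ d' : D, (if P.φ.SameCycle d d' then (diag d' + spoke d') else 0)) = 0 := by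
    intro d
    have h1 : ∀ d', diag d' + spoke d' = (diag d' + ring' d' + inner' d') +
        (diag (P.φ.symm d') + ring' (P.φ.symm d')) := by
      intro d'
      have h := hD2' d'
      have h3 : spoke d' = diag (P.φ.symm d') + ring' d' + ring' (P.φ.symm d') + inner' d' := by
        generalize spoke d' = a at h ⊢
        generalize diag (P.φ.symm d') = b at h ⊢
        generalize ring' d' = c at h ⊢
        generalize ring' (P.φ.symm d') = e at h ⊢
        generalize inner' d' = f at h ⊢
        revert a b c e f
        decide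
      rw [h3]
      ring
    have h2 : ∀ d', (if P.φ.SameCycle d d' then (diag d' + spoke d') else 0) =
        ((if P.φ.SameCycle d d' then diag d' else 0) +
          (if P.φ.SameCycle d d' then ring' d' else 0) +
          (if P.φ.SameCycle d d' then inner' d' else 0)) +
        ((if P.φ.SameCycle d d' then diag (P.φ.symm d') else 0) +
          (if P.φ.SameCycle d d' then ring' (P.φ.symm d') else 0)) := by
      intro d'
      rw [h1]
      split_ifs
      · rfl
      · simp
    rw [Finset.sum_congr rfl fun d' _ => h2 d']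
    rw [Finset.sum_add_distrib, Finset.sum_add_distrib, Finset.sum_add_distrib,
      Finset.sum_add_distrib, hshift diag, hshift ring', hD3 d]
    generalize (∑ d' : D, (if P.φ.SameCycle d d' then diag d' else 0)) = a
    generalize (∑ d' : D, (if P.φ.SameCycle d d' then ring' d' else 0)) = b
    revert a b
    decide
  obtain ⟨r0, hr0⟩ := hO D P.φ (fun d => diag d + spoke d) hg
  -- the chain on the edges of the map
  have hmainα : ∀ d, main' (P.α d) = main' d := by
    intro d
    simp only [hmn]
    rw [P.αα, hsym]
  obtain ⟨b, hb1, hb2⟩ := P.exact (fun d => main' d + r0 d + r0 (P.α d)) (by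
    intro d
    show main' (P.α d) + r0 (P.α d) + r0 (P.α (P.α d)) = main' d + r0 d + r0 (P.α d)
    rw [hmainα, P.αα]
    ring) (by
    intro v
    have hre : (∑ d : D, (if P.o d = v then r0 (P.α d) else 0)) =
        ∑ d : D, (if P.o d = v then r0 (P.φ.symm d) else 0) := by
      let αe : Equiv.Perm D := ⟨P.α, P.α, P.αα, P.αα⟩
      rw [← Equiv.sum_comp (αe.trans P.φ)
        (fun d' => if P.o d' = v then r0 (P.φ.symm d') else 0)]
      apply Finset.sum_congr rfl
      intro d _
      have e1 : (αe.trans P.φ) d = P.φ (P.α d) := rfl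
      rw [e1, Equiv.symm_apply_apply, P.oφ, P.αα]
    have hsplit : (∑ d : D, (if P.o d = v then (main' d + r0 d + r0 (P.α d)) else 0)) =
        ((∑ d : D, (if P.o d = v then main' d else 0)) +
          ∑ d : D, (if P.o d = v then r0 d else 0)) +
        ∑ d : D, (if P.o d = v then r0 (P.α d) else 0) := by
      rw [← Finset.sum_add_distrib, ← Finset.sum_add_distrib]
      apply Finset.sum_congr rfl
      intro d _
      by_cases hd : P.o d = v
      · rw [if_pos hd, if_pos hd, if_pos hd, if_pos hd]
      · rw [if_neg hd, if_neg hd, if_neg hd, if_neg hd, add_zero, add_zero]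
    show (∑ d : D, (if P.o d = v then (main' d + r0 d + r0 (P.α d)) else 0)) = 0
    rw [hsplit, hre, ← Finset.sum_add_distrib, ← Finset.sum_add_distrib]
    refine Eq.trans ?_ (hD1' v)
    apply Finset.sum_congr rfl
    intro d _
    have h := hr0 d
    by_cases hd : P.o d = v
    · rw [if_pos hd, if_pos hd, if_pos hd, if_pos hd, add_assoc, h]
      ring
    · rw [if_neg hd, if_neg hd, if_neg hd, if_neg hd, add_zero, add_zero])
  set r : D → ZMod 2 := fun d => r0 d + b d with hr
  have hbs : ∀ d, b (P.φ.symm d) = b d := by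
    intro d
    have := hb1 (P.φ.symm d)
    rw [Equiv.apply_symm_apply] at this
    exact this.symm
  have hr1 : ∀ d, r d + r (P.φ.symm d) = diag d + spoke d := by
    intro d
    simp only [hr]
    rw [hbs, ← hr0 d]
    have := add_self2 (b d)
    linear_combination this
  have hr2 : ∀ d, r d + r (P.α d) = main' d := by
    intro d
    have h : b d + b (P.α d) = main' d + r0 d + r0 (P.α d) := hb2 d
    simp only [hr]
    have h3 := add_self2 (r0 d)
    have h4 := add_self2 (r0 (P.α d))
    linear_combination h + h3 + h4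
  -- the set of triangles
  set χ : D × Fin 3 → ZMod 2 := fun t =>
    if t.2 = 0 then r t.1 else if t.2 = 1 then r t.1 + diag t.1 else r t.1 + diag t.1 + ring' t.1
    with hχ
  have c0 : ∀ d, χ (d, 0) = r d := fun d => by simp [hχ]
  have c1 : ∀ d, χ (d, 1) = r d + diag d := fun d => by simp [hχ]
  have c2 : ∀ d, χ (d, 2) = r d + diag d + ring' d := fun d => by simp [hχ]
  have hTE : ∀ u v t t', TE P u v t t' → C u v = χ t + χ t' := by
    intro u v t t' h
    cases h with
    | main d => rw [c0, c0, hr2]
    | spoke d =>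
      rw [c1, c0]
      show spoke d = _
      have := hr1 d
      have h3 := add_self2 (diag d)
      linear_combination (-1 : ZMod 2) * this - h3
    | diag d =>
      rw [c0, c1]
      show diag d = _
      have := add_self2 (r d)
      linear_combination (-1 : ZMod 2) * this
    | ring d =>
      rw [c1, c2]
      show ring' d = _
      have := add_self2 (r d)
      have h3 := add_self2 (diag d)
      linear_combination (-1 : ZMod 2) * this - h3
    | inner d =>
      rw [c2, c2]
      show inner' d = _
      have h1 := hr1 d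
      have h2 := hD2' d
      have h3 := add_self2 (diag d)
      have h4 := add_self2 (spoke d)
      have h5 := add_self2 (inner' d)
      linear_combination (-1 : ZMod 2) * h1 - h2 - h3 + h5
  refine ⟨Finset.univ.filter (fun t => χ t = 1), ?_⟩
  have key : ∀ u v t t', t ≠ t' → (∀ s, (u ∈ triVt P s ∧ v ∈ triVt P s) ↔ (s = t ∨ s = t')) →
      u ≠ v → bd (triVt P) (Finset.univ.filter (fun t => χ t = 1)) u v = χ t + χ t' := by
    intro u v t t' h1 h3 huv
    exact bd_pair (triVt P) _ u v t t' h1 huv h3 (χ t) (χ t') (by simp) (by simp)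
  funext u v
  by_cases huv : u = v
  · rw [huv, bd_self, hdiag]
  · by_cases hs : ∃ s, u ∈ triVt P s ∧ v ∈ triVt P s
    · obtain ⟨s, hs1, hs2⟩ := hs
      obtain ⟨t, t', h⟩ := hE3 u v s huv hs1 hs2
      rcases h with h | h
      · obtain ⟨h1, -, h3⟩ := hE2 u v t t' h
        rw [key u v t t' h1 h3 huv, hTE u v t t' h]
      · obtain ⟨h1, -, h3⟩ := hE2 v u t t' h
        rw [key u v t t' h1 (fun s => by rw [and_comm]; exact h3 s) huv, hsym u v,
          hTE v u t t' h]
    · have h0 : C u v = 0 := by
        by_contra hne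
        exact hs (hsupp u v hne)
      rw [h0]
      push Not at hs
      exact bd_none _ _ u v hs

end

end Pool.Agent.Helper23.Stk
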